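import Pool.Agent.H27.G.R_seed8.H306R2.RZ.Defs4

set_option autoImplicit false

/-!
Basic lemmas for the recursion in Heath-Brown's large sieve.
-/

namespace Pool.Agent.H139R2.HI

open Finset Filter Topology MeasureTheory Pool.Agent.H306R2.RZ

noncomputable section

/-! ### arithmetic -/

theorem nt (n1 n2 : ℕ) (o1 : Odd n1) (o2 : Odd n2) (s1 : Squarefree n1) (s2 : Squarefree n2)
    (hne : n1 ≠ n2) (h4 : n1 % 4 = n2 % 4) :
    Odd (Nat.gcd n1 n2) ∧ Squarefree (Nat.gcd n1 n2) ∧ Odd (n1 * n2 / Nat.gcd n1 n2 ^ 2) ∧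
    Squarefree (n1 * n2 / Nat.gcd n1 n2 ^ 2) ∧
    (Nat.gcd n1 n2).Coprime (n1 * n2 / Nat.gcd n1 n2 ^ 2) ∧
    (n1 * n2 / Nat.gcd n1 n2 ^ 2) % 4 = 1 ∧ 1 < n1 * n2 / Nat.gcd n1 n2 ^ 2 ∧
    Nat.gcd n1 n2 ^ 2 * (n1 * n2 / Nat.gcd n1 n2 ^ 2) = n1 * n2 := by
  have hn1 : 0 < n1 := o1.pos
  have hn2 : 0 < n2 := o2.pos
  have hg : 0 < Nat.gcd n1 n2 := Nat.gcd_pos_of_pos_left _ hn1
  obtain ⟨x, y, hxy, hx, hy⟩ := Nat.exists_coprime n1 n2
  set g := Nat.gcd n1 n2 with hgdef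
  have e1 : n1 * n2 = g ^ 2 * (x * y) := by rw [hx, hy]; ring
  have e2 : n1 * n2 / g ^ 2 = x * y := by
    rw [e1]; exact Nat.mul_div_cancel_left _ (by positivity)
  rw [e2]
  rw [hx] at o1 s1
  rw [hy] at o2 s2
  rw [Nat.odd_mul] at o1 o2
  rw [Nat.squarefree_mul_iff] at s1 s2
  have hx0 : 0 < x := o1.1.pos
  have hy0 : 0 < y := o2.1.pos
  refine ⟨o1.2, s1.2.2, Nat.odd_mul.2 ⟨o1.1, o2.1⟩, Nat.squarefree_mul_iff.2 ⟨hxy, s1.2.1, s2.2.1⟩,
    Nat.Coprime.mul_right s1.1.symm s2.1.symm, ?_, ?_, e1.symm⟩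
  · have h4' : (x * g) % 4 = (y * g) % 4 := by rw [← hx, ← hy]; exact h4
    have ox := Nat.odd_iff.1 o1.1
    have og := Nat.odd_iff.1 o1.2
    have oy := Nat.odd_iff.1 o2.1
    have a1 : x % 4 = 1 ∨ x % 4 = 3 := by omega
    have a2 : y % 4 = 1 ∨ y % 4 = 3 := by omega
    have a3 : g % 4 = 1 ∨ g % 4 = 3 := by omega
    rw [Nat.mul_mod x g, Nat.mul_mod y g] at h4'
    rw [Nat.mul_mod]
    rcases a1 with a1 | a1 <;> rcases a2 with a2 | a2 <;> rcases a3 with a3 | a3 <;>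
      simp [a1, a2, a3] at h4' ⊢
  · rcases Nat.lt_or_ge 1 (x * y) with h | h
    · exact h
    · exfalso
      apply hne
      have : x * y = 1 := le_antisymm h (Nat.mul_pos hx0 hy0)
      have hx1 := Nat.eq_one_of_mul_eq_one_right this
      have hy1 := Nat.eq_one_of_mul_eq_one_left this
      rw [hx, hy, hx1, hy1]

theorem js_mul_right (m : ℤ) (a b : ℕ) (ha : a ≠ 0) (hb : b ≠ 0) :
    js m (a * b) = js m a * js m b := by
  have : NeZero a := ⟨ha⟩
  have : NeZero b := ⟨hb⟩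
  unfold js
  rw [jacobiSym.mul_right]
  push_cast
  ring

theorem js_sq (m : ℤ) (g : ℕ) (hg : g ≠ 0) :
    js m g ^ 2 = if Int.gcd m g = 1 then 1 else 0 := by
  have : NeZero g := ⟨hg⟩
  unfold js
  split_ifs with h
  · have := jacobiSym.sq_one h
    exact_mod_cast this
  · have := (jacobiSym.eq_zero_iff_not_coprime (a := m) (b := g)).2 h
    rw [this]
    simp

theorem js_abs_le (m : ℤ) (n : ℕ) : |js m n| ≤ 1 := by
  unfold js
  rcases jacobiSym.trichotomy m n with h | h | h <;> rw [h] <;> norm_num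

/-- `(m | g² q) = [(m,g) = 1] (m | q)` -/
theorem js_gq (m : ℤ) (g q : ℕ) (hg : g ≠ 0) (hq : q ≠ 0) :
    js m (g ^ 2 * q) = (if Int.gcd m g = 1 then js m q else 0) := by
  rw [js_mul_right m (g ^ 2) q (by positivity) hq, pow_two, js_mul_right m g g hg hg, ← pow_two,
    js_sq m g hg]
  split_ifs <;> ring

/-- `(k b² | n) = (k | n) [(b,n) = 1]` -/
theorem js_kb (k : ℤ) (b n : ℕ) (hn : n ≠ 0) :
    js (k * (b : ℤ) ^ 2) n = js k n * (if b.Coprime n then 1 else 0) := by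
  have h := js_sq (b : ℤ) n hn
  have e : js (k * (b : ℤ) ^ 2) n = js k n * js (b : ℤ) n ^ 2 := by
    unfold js
    rw [jacobiSym.mul_left, jacobiSym.pow_left]
    push_cast
    ring
  rw [e, h]
  congr 1

/-- uniqueness of the squarefree part -/
theorem sqf_unique (k k' b b' : ℕ) (hk : Squarefree k) (hk' : Squarefree k') (hb : b ≠ 0)
    (h : k * b ^ 2 = k' * b' ^ 2) : k = k' := by
  have hk0 : k ≠ 0 := hk.ne_zero
  have hk0' : k' ≠ 0 := hk'.ne_zero
  have hb' : b' ≠ 0 := by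
    rintro rfl
    simp at h
    omega
  have e1 : k * k' * b' ^ 2 = (k * b) ^ 2 := by
    calc k * k' * b' ^ 2 = k * (k' * b' ^ 2) := by ring
      _ = k * (k * b ^ 2) := by rw [h]
      _ = _ := by ring
  have e2 : b' ∣ k * b := by
    have : b' ^ 2 ∣ (k * b) ^ 2 := ⟨k * k', by rw [← e1]; ring⟩
    exact (Nat.pow_dvd_pow_iff (by norm_num)).1 this
  obtain ⟨c, hc⟩ := e2
  have e3 : k * k' = c ^ 2 := by
    have : k * k' * b' ^ 2 = c ^ 2 * b' ^ 2 := by rw [e1, hc]; ring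
    exact Nat.eq_of_mul_eq_mul_right (by positivity) this
  have e4 : k ∣ c := (hk.dvd_pow_iff_dvd (by norm_num : (2 : ℕ) ≠ 0)).1 ⟨k', e3.symm⟩
  obtain ⟨d, hd⟩ := e4
  have e5 : k' = k * (d * d) := by
    have : k * k' = k * (k * (d * d)) := by rw [e3, hd]; ring
    exact Nat.eq_of_mul_eq_mul_left (Nat.pos_of_ne_zero hk0) this
  have e6 : IsUnit d := hk' d ⟨k, by rw [e5]; ring⟩
  rw [Nat.isUnit_iff] at e6
  rw [e5, e6]
  ring

/-- squarefree parts of an integer -/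
theorem sqf_unique_int (k k' : ℤ) (b b' : ℕ) (hk : Squarefree k.natAbs)
    (hk' : Squarefree k'.natAbs) (hb : b ≠ 0) (hb' : b' ≠ 0)
    (h : k * (b : ℤ) ^ 2 = k' * (b' : ℤ) ^ 2) : k = k' := by
  have h1 : k.natAbs = k'.natAbs := by
    apply sqf_unique k.natAbs k'.natAbs b b' hk hk' hb
    have := congrArg Int.natAbs h
    simpa [Int.natAbs_mul, Int.natAbs_pow] using this
  rcases Int.natAbs_eq_natAbs_iff.1 h1 with h2 | h2
  · exact h2
  · exfalso
    have hk0 : k' ≠ 0 := by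
      rintro rfl
      simp at hk'
    have hbp : (0 : ℤ) < (b : ℤ) ^ 2 := by positivity
    have hbp' : (0 : ℤ) < (b' : ℤ) ^ 2 := by positivity
    rw [h2] at h
    have : k' * ((b : ℤ) ^ 2 + (b' : ℤ) ^ 2) = 0 := by linarith
    rcases mul_eq_zero.1 this with h3 | h3
    · exact hk0 h3
    · linarith

/-! ### the Gaussian weight -/

/-- `w(m) = exp(-π (m/M)²)` -/
def w (M : ℝ) (m : ℤ) : ℝ := Real.exp (-(Real.pi * ((m : ℝ) / M) ^ 2))

theorem w_pos (M : ℝ) (m : ℤ) : 0 < w M m := Real.exp_pos _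

theorem w_summable (M : ℝ) (hM : 0 < M) : Summable (w M) := by
  have h1 : Summable (fun n : ℕ => Real.exp (-(Real.pi / M ^ 2) * n)) := by
    have := Real.summable_pow_mul_exp_neg_nat_mul 0 (r := Real.pi / M ^ 2) (by positivity)
    simpa using this
  have h2 : ∀ m : ℤ, ∀ n : ℕ, m.natAbs = n → w M m ≤ Real.exp (-(Real.pi / M ^ 2) * n) := by
    intro m n hn
    unfold w
    apply Real.exp_le_exp.2
    have h3 : (n : ℝ) ≤ (m : ℝ) ^ 2 := by
      have : (m : ℝ) ^ 2 = (n : ℝ) ^ 2 := by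
        rw [← hn, ← Int.cast_natCast, Int.natCast_natAbs]
        push_cast
        rw [sq_abs]
      rw [this]
      rcases Nat.eq_zero_or_pos n with h | h
      · simp [h]
      · have : (1 : ℝ) ≤ n := by exact_mod_cast h
        nlinarith
    have h4 : Real.pi * ((m : ℝ) / M) ^ 2 = Real.pi / M ^ 2 * (m : ℝ) ^ 2 := by
      field_simp
    rw [h4]
    have : 0 ≤ Real.pi / M ^ 2 := by positivity
    nlinarith [mul_le_mul_of_nonneg_left h3 this]
  apply Summable.of_nat_of_neg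
  · exact Summable.of_nonneg_of_le (fun n : ℕ => (w_pos M (n : ℤ)).le)
      (fun n : ℕ => h2 (n : ℤ) n (by simp)) h1
  · exact Summable.of_nonneg_of_le (fun n : ℕ => (w_pos M (-(n : ℤ))).le)
      (fun n : ℕ => h2 (-(n : ℤ)) n (by simp)) h1

/-- the total mass of the weight is at most `C₀ M` -/
theorem w_sum_le (M : ℝ) (hM : 1 ≤ M) : ∑' m : ℤ, w M m ≤ (∑' m : ℤ, w 1 m) * M := by
  have hM0 : 0 < M := by linarith
  have h := Real.tsum_exp_neg_mul_int_sq (a := 1 / M ^ 2) (by positivity)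
  have e1 : ∀ m : ℤ, Real.exp (-Real.pi * (1 / M ^ 2) * (m : ℝ) ^ 2) = w M m := by
    intro m
    unfold w
    congr 1
    field_simp
  have e2 : ∀ m : ℤ, Real.exp (-Real.pi / (1 / M ^ 2) * (m : ℝ) ^ 2) = w (1 / M) m := by
    intro m
    unfold w
    congr 1
    field_simp
  simp only [e1, e2] at h
  rw [h]
  have e3 : (1 : ℝ) / (1 / M ^ 2) ^ (1 / 2 : ℝ) = M := by
    rw [← Real.sqrt_eq_rpow, Real.sqrt_div zero_le_one, Real.sqrt_one, Real.sqrt_sq hM0.le]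
    field_simp
  rw [e3, mul_comm]
  apply mul_le_mul_of_nonneg_right _ hM0.le
  apply Summable.tsum_le_tsum _ (w_summable _ (by positivity)) (w_summable _ one_pos)
  intro m
  unfold w
  apply Real.exp_le_exp.2
  have : (m : ℝ) ^ 2 ≤ (m : ℝ) ^ 2 * M ^ 2 := by
    have h1 : (1 : ℝ) ≤ M ^ 2 := by nlinarith
    nlinarith [sq_nonneg (m : ℝ)]
  have e4 : ((m : ℝ) / (1 / M)) ^ 2 = (m : ℝ) ^ 2 * M ^ 2 := by field_simp
  rw [e4, div_one]
  nlinarith [Real.pi_pos, mul_le_mul_of_nonneg_left this Real.pi_pos.le]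

end

end Pool.Agent.H139R2.HI
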