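import Pool.Agent.H27.G.R_seed8.H139R2.HI1

set_option autoImplicit false

/-!
Expansions and the lower bound for the recursion in Heath-Brown's large sieve.
-/

namespace Pool.Agent.H139R2.HI

open Finset Filter Topology MeasureTheory Pool.Agent.H306R2.RZ

noncomputable section

/-- the character sum -/
def AA (N : ℕ) (a : ℕ → ℂ) (m : ℤ) : ℂ := ∑ n ∈ osf N, a n * (js m n : ℂ)

theorem mem_osf {N n : ℕ} : n ∈ osf N ↔ (1 ≤ n ∧ n ≤ N) ∧ Odd n ∧ Squarefree n := by
  unfold osf; simp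

theorem mem_sqf {N n : ℕ} : n ∈ sqf N ↔ (1 ≤ n ∧ n ≤ N) ∧ Squarefree n := by
  unfold sqf; simp

theorem AA_sq (N : ℕ) (a : ℕ → ℂ) (m : ℤ) :
    ((‖AA N a m‖ ^ 2 : ℝ) : ℂ) = ∑ n1 ∈ osf N, ∑ n2 ∈ osf N,
      a n1 * (starRingEnd ℂ) (a n2) * (js m (n1 * n2) : ℂ) := by
  have h : ((‖AA N a m‖ ^ 2 : ℝ) : ℂ) = AA N a m * (starRingEnd ℂ) (AA N a m) := by
    rw [Complex.mul_conj']
    push_cast
    rfl
  rw [h]
  unfold AA
  rw [map_sum, Finset.sum_mul_sum]
  apply Finset.sum_congr rfl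
  intro n1 h1
  apply Finset.sum_congr rfl
  intro n2 h2
  rw [mem_osf] at h1 h2
  rw [js_mul_right m n1 n2 (by omega) (by omega), map_mul, Complex.conj_ofReal]
  push_cast
  ring

theorem AA_le (N : ℕ) (a : ℕ → ℂ) (m : ℤ) : ‖AA N a m‖ ≤ ∑ n ∈ osf N, ‖a n‖ := by
  unfold AA
  refine (norm_sum_le _ _).trans (Finset.sum_le_sum fun n _ => ?_)
  rw [norm_mul, Complex.norm_real, Real.norm_eq_abs]
  exact mul_le_of_le_one_right (norm_nonneg _) (js_abs_le m n)

theorem expand {ι : Type*} (f : ι → ℝ) (hf : Summable f) (hf0 : ∀ i, 0 ≤ f i) (g : ι → ℤ)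
    (N : ℕ) (a : ℕ → ℂ) :
    ((∑' i, f i * ‖AA N a (g i)‖ ^ 2 : ℝ) : ℂ) = ∑ n1 ∈ osf N, ∑ n2 ∈ osf N,
      a n1 * (starRingEnd ℂ) (a n2) * ((∑' i, f i * js (g i) (n1 * n2) : ℝ) : ℂ) := by
  rw [Complex.ofReal_tsum]
  apply HasSum.tsum_eq
  have e : ∀ i, ((f i * ‖AA N a (g i)‖ ^ 2 : ℝ) : ℂ) = ∑ n1 ∈ osf N, ∑ n2 ∈ osf N,
      a n1 * (starRingEnd ℂ) (a n2) * ((f i * js (g i) (n1 * n2) : ℝ) : ℂ) := by
    intro i
    have : ((f i * ‖AA N a (g i)‖ ^ 2 : ℝ) : ℂ) = (f i : ℂ) * ((‖AA N a (g i)‖ ^ 2 : ℝ) : ℂ) := by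
      push_cast; ring
    rw [this, AA_sq, Finset.mul_sum]
    apply Finset.sum_congr rfl
    intro n1 _
    rw [Finset.mul_sum]
    apply Finset.sum_congr rfl
    intro n2 _
    push_cast
    ring
  simp only [e]
  apply hasSum_sum
  intro n1 _
  apply hasSum_sum
  intro n2 _
  apply HasSum.mul_left
  apply Complex.hasSum_ofReal.2
  apply Summable.hasSum
  apply Summable.of_norm_bounded hf
  intro i
  rw [norm_mul, Real.norm_eq_abs, Real.norm_eq_abs, abs_of_nonneg (hf0 i)]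
  exact mul_le_of_le_one_right (hf0 i) (js_abs_le _ _)

theorem F_summable (M : ℝ) (hM : 0 < M) (N : ℕ) (a : ℕ → ℂ) :
    Summable (fun m : ℤ => w M m * ‖AA N a m‖ ^ 2) := by
  apply Summable.of_nonneg_of_le (fun m => by have := w_pos M m; positivity)
    (fun m => ?_) ((w_summable M hM).mul_right ((∑ n ∈ osf N, ‖a n‖) ^ 2))
  apply mul_le_mul_of_nonneg_left _ (w_pos M m).le
  have := AA_le N a m
  have h0 := norm_nonneg (AA N a m)
  nlinarith

/-- squarefree integers up to `K` in absolute value -/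
def Tset (K : ℕ) : Finset ℤ := (Icc (-(K : ℤ)) (K : ℤ)).filter (fun k => Squarefree k.natAbs)

theorem mem_Tset {K : ℕ} {k : ℤ} : k ∈ Tset K ↔ k.natAbs ≤ K ∧ Squarefree k.natAbs := by
  unfold Tset
  rw [mem_filter, mem_Icc]
  constructor
  · rintro ⟨h, h'⟩; exact ⟨by omega, h'⟩
  · rintro ⟨h, h'⟩; exact ⟨by omega, h'⟩

theorem inj_kb (k : ℤ) (hk : Squarefree k.natAbs) :
    Function.Injective (fun b : ℕ => k * (b : ℤ) ^ 2) := by
  intro b c h
  have hk0 : k ≠ 0 := by
    rintro rfl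
    simp at hk
  have h1 : (b : ℤ) ^ 2 = (c : ℤ) ^ 2 := mul_left_cancel₀ hk0 h
  have h2 : b ^ 2 = c ^ 2 := by exact_mod_cast h1
  exact Nat.pow_left_injective (by norm_num : (2 : ℕ) ≠ 0) h2

open Classical in
theorem lower (M K : ℕ) (F : ℤ → ℝ) (hF0 : ∀ m, 0 ≤ F m) (hF : Summable F) :
    (∑ k ∈ Tset K, ∑' b : ℕ, (if b ≠ 0 then F (k * (b : ℤ) ^ 2) else 0)) +
      ∑ m ∈ (sqf M).filter (fun m => K < m), F (m : ℤ) ≤ ∑' m, F m := by
  set G : ℤ → ℤ → ℝ := fun k m => if (∃ b : ℕ, b ≠ 0 ∧ m = k * (b : ℤ) ^ 2) then F m else 0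
    with hG
  set G' : ℕ → ℤ → ℝ := fun n m => if m = (n : ℤ) then F n else 0 with hG'
  have hGs : ∀ k, Summable (G k) := by
    intro k
    apply Summable.of_nonneg_of_le (fun m => ?_) (fun m => ?_) hF
    · simp only [hG]; split_ifs
      · exact hF0 m
      · exact le_rfl
    · simp only [hG]; split_ifs
      · exact le_rfl
      · exact hF0 m
  have hGs' : ∀ n, Summable (G' n) := by
    intro n
    apply Summable.of_nonneg_of_le (fun m => ?_) (fun m => ?_) hF
    · simp only [hG']; split_ifs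
      · exact hF0 _
      · exact le_rfl
    · simp only [hG']; split_ifs with h
      · rw [h]
      · exact hF0 m
  have e1 : ∀ k ∈ Tset K, (∑' b : ℕ, (if b ≠ 0 then F (k * (b : ℤ) ^ 2) else 0)) =
      ∑' m, G k m := by
    intro k hk
    have hinj := inj_kb k (mem_Tset.1 hk).2
    rw [← hinj.tsum_eq (f := G k)]
    · apply tsum_congr
      intro b
      by_cases hb : b = 0
      · subst hb
        simp only [hG, ne_eq, not_true_eq_false, ite_false]
        rw [if_neg]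
        rintro ⟨c, hc, h⟩
        exact hc (hinj h).symm
      · simp only [hG]
        rw [if_pos hb, if_pos ⟨b, hb, rfl⟩]
    · intro m hm
      rw [Function.mem_support] at hm
      simp only [hG] at hm
      split_ifs at hm with h
      · obtain ⟨b, -, hb⟩ := h
        exact ⟨b, hb.symm⟩
      · exact absurd rfl hm
  rw [Finset.sum_congr rfl e1]
  have e2 : ∀ n ∈ (sqf M).filter (fun m => K < m), F (n : ℤ) = ∑' m, G' n m := by
    intro n _
    simp only [hG']
    rw [tsum_ite_eq]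
  rw [Finset.sum_congr rfl e2, ← Summable.tsum_finsetSum (fun k _ => hGs k),
    ← Summable.tsum_finsetSum (fun k _ => hGs' k),
    ← Summable.tsum_add (summable_sum fun k _ => hGs k) (summable_sum fun k _ => hGs' k)]
  apply Summable.tsum_le_tsum _ ((summable_sum fun k _ => hGs k).add
    (summable_sum fun k _ => hGs' k)) hF
  intro m
  by_cases h : ∃ k ∈ Tset K, ∃ b : ℕ, b ≠ 0 ∧ m = k * (b : ℤ) ^ 2
  · obtain ⟨k, hk, b, hb, hm⟩ := h
    have h1 : ∑ k' ∈ Tset K, G k' m = F m := by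
      rw [Finset.sum_eq_single k]
      · simp only [hG]; rw [if_pos ⟨b, hb, hm⟩]
      · intro k' hk' hne
        simp only [hG]
        rw [if_neg]
        rintro ⟨c, hc, h2⟩
        apply hne
        exact sqf_unique_int k' k c b (mem_Tset.1 hk').2 (mem_Tset.1 hk).2 hc hb
          (h2.symm.trans hm)
      · intro h; exact absurd hk h
    have h2 : ∑ n ∈ (sqf M).filter (fun m => K < m), G' n m = 0 := by
      apply Finset.sum_eq_zero
      intro n hn
      simp only [hG']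
      rw [if_neg]
      intro h3
      rw [mem_filter, mem_sqf] at hn
      have h4 := sqf_unique_int (n : ℤ) k 1 b (by simpa using hn.1.2) (mem_Tset.1 hk).2
        (by norm_num) hb (by rw [← hm, h3]; push_cast; ring)
      have h5 := (mem_Tset.1 hk).1
      rw [← h4] at h5
      simp at h5
      omega
    rw [h1, h2, add_zero]
  · have h1 : ∑ k' ∈ Tset K, G k' m = 0 := by
      apply Finset.sum_eq_zero
      intro k hk
      simp only [hG]
      rw [if_neg]
      intro h2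
      exact h ⟨k, hk, h2⟩
    rw [h1, zero_add]
    by_cases h3 : ∃ n ∈ (sqf M).filter (fun m => K < m), m = (n : ℤ)
    · obtain ⟨n, hn, hm⟩ := h3
      rw [Finset.sum_eq_single n]
      · simp only [hG']; rw [if_pos hm, hm]
      · intro n' _ hne
        simp only [hG']
        rw [if_neg]
        intro h4
        apply hne
        have : (n' : ℤ) = n := by rw [← h4, hm]
        exact_mod_cast this
      · intro h; exact absurd hn h
    · rw [Finset.sum_eq_zero]
      · exact hF0 m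
      · intro n hn
        simp only [hG']
        rw [if_neg]
        intro h4
        exact h3 ⟨n, hn, h4⟩

theorem Phr_term (M : ℝ) (hM : 0 < M) (k : ℤ) (hk : k ≠ 0) (b : ℕ) :
    Real.exp (-(Real.pi * ((b : ℝ) / Real.sqrt (M / k.natAbs)) ^ 4)) =
      w M (k * (b : ℤ) ^ 2) := by
  unfold w
  congr 3
  have hk0 : (0 : ℝ) < (k.natAbs : ℝ) := by
    have := Int.natAbs_pos.2 hk
    exact_mod_cast this
  have h1 : Real.sqrt (M / k.natAbs) ^ 4 = (M / k.natAbs) ^ 2 := by
    have : Real.sqrt (M / k.natAbs) ^ 4 = (Real.sqrt (M / k.natAbs) ^ 2) ^ 2 := by ring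
    rw [this, Real.sq_sqrt (by positivity)]
  rw [div_pow, h1]
  have h2 : ((k.natAbs : ℝ)) ^ 2 = (k : ℝ) ^ 2 := by
    rw [← Int.cast_natCast, Int.natCast_natAbs]
    push_cast
    rw [sq_abs]
  push_cast
  rw [div_pow M, div_div_eq_mul_div, h2, div_pow]
  ring

/-- expansion of the square class of `k` -/
theorem Sk_expand (M : ℝ) (hM : 0 < M) (k : ℤ) (hk : Squarefree k.natAbs) (N : ℕ) (a : ℕ → ℂ) :
    ((∑' b : ℕ, (if b ≠ 0 then w M (k * (b : ℤ) ^ 2) * ‖AA N a (k * (b : ℤ) ^ 2)‖ ^ 2 else 0) :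
      ℝ) : ℂ) = ∑ n1 ∈ osf N, ∑ n2 ∈ osf N, a n1 * (starRingEnd ℂ) (a n2) *
        ((js k (n1 * n2) * Phr (n1 * n2) (Real.sqrt (M / k.natAbs)) : ℝ) : ℂ) := by
  have hk0 : k ≠ 0 := by
    rintro rfl
    simp at hk
  have hs : Summable (fun b : ℕ => if b ≠ 0 then w M (k * (b : ℤ) ^ 2) else 0) := by
    have h1 := (w_summable M hM).comp_injective (inj_kb k hk)
    apply Summable.of_nonneg_of_le (fun b => ?_) (fun b => ?_) h1
    · split_ifs
      · exact (w_pos _ _).le
      · exact le_rfl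
    · simp only [Function.comp]
      split_ifs
      · exact le_rfl
      · exact (w_pos _ _).le
  have h := expand (fun b : ℕ => if b ≠ 0 then w M (k * (b : ℤ) ^ 2) else 0) hs
    (fun b => by
      split_ifs
      · exact (w_pos _ _).le
      · exact le_rfl) (fun b : ℕ => k * (b : ℤ) ^ 2) N a
  have e : ∀ b : ℕ, (if b ≠ 0 then w M (k * (b : ℤ) ^ 2) * ‖AA N a (k * (b : ℤ) ^ 2)‖ ^ 2 else 0) =
      (if b ≠ 0 then w M (k * (b : ℤ) ^ 2) else 0) * ‖AA N a (k * (b : ℤ) ^ 2)‖ ^ 2 := by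
    intro b
    split_ifs <;> simp
  simp only [e]
  rw [h]
  apply Finset.sum_congr rfl
  intro n1 h1
  apply Finset.sum_congr rfl
  intro n2 h2
  rw [mem_osf] at h1 h2
  congr 2
  unfold Phr
  rw [← tsum_mul_left]
  apply tsum_congr
  intro b
  have hne : n1 * n2 ≠ 0 := Nat.mul_ne_zero (by omega) (by omega)
  rw [js_kb k b (n1 * n2) hne, Phr_term M hM k hk0 b]
  by_cases hb : b = 0
  · simp [hb]
  · by_cases hc : b.Coprime (n1 * n2)
    · simp [hb, mul_comm]
    · simp [hc]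

end

end Pool.Agent.H139R2.HI
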